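import Mathlib
import Pool.Agent.K9h17.H.BMain

/-!
# The Tate classes on products of abelian varieties of Weil type: divisors and Weil classes

Let `Y` be a simple abelian variety over a number field and `ℚ[a]` a maximal subfield of the
endomorphism algebra `End(Y) ⊗ ℚ`, of degree `m`, and `2 p = 2 dim(Y) / m` the relative dimension.
For each embedding `s` of `ℚ[a]` in `ℂ` there is the relative signature, whose first entry is the
multiplicity of the eigenvalue `s` of `a` on the tangent space. For the types I, II and III all
relative signatures are `(p, p)`. Suppose that `Y` is of type IV and that all relative signatures are
`(p, p)`; for instance, let `End(Y) ⊗ ℚ` be an imaginary quadratic field and let `Y` be an abelian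
variety of Weil type, of dimension `2 p`. Then there are exceptional Tate classes of codimension `p`
on `Y`, the Weil classes: `Λ^{2p}_{ℚ[a]} H^1(Y, ℚ)` consists of Hodge classes, and its elements are
not in the ring generated by the classes of divisors. All the results for which the ring of Tate
classes is generated by divisors exclude this case.

**Theorem.** Let `X` be an abelian variety over a number field. Suppose that no simple factor of `X`
is of type III, and that all relative signatures of all simple factors of `X` are of the form `(p, p)`
where `p` is odd or `p = 2`; `p` may be different for different factors. Then in all codimensions each
`ℓ`-adic Tate class on `X` is a linear combination, with coefficients in `ℚ_ℓ`, of products of Hodge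
classes of degree two and of pull-backs of Weil classes along homomorphisms from `X` to simple factors
of type IV.

The class of these abelian varieties contains all products and powers of its members, for example all
products of fourfolds of Weil type and of abelian varieties of Weil type of dimension `2 p`, `p` odd,
whose endomorphism algebras are imaginary quadratic fields (different fields and different dimensions
are allowed), of elliptic curves without complex multiplication, of simple abelian surfaces which are
not of CM type, and of abelian varieties of odd dimension with `End = ℤ`. There are no exceptional
Tate classes besides those which are generated by the Weil classes of the individual simple factors: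
none of them comes from the interaction of different factors (for example of two factors of Weil type
with the same imaginary quadratic field).

The Hodge classes of degree two are classes of divisors (Lefschetz). So the Tate conjecture for `X` is
reduced to the algebraicity of the Weil classes on its simple factors of type IV. For fourfolds of
Weil type and for sixfolds of split Weil type the Weil classes are algebraic by theorems of Markman,
so that the Tate conjecture holds in all codimensions for all products of such fourfolds and sixfolds
whose endomorphism algebras are imaginary quadratic fields, also together with factors of the types I
and II as above. (For simple fourfolds this is in the work of Moonen and Zarhin, up to the theorem of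
Markman.) If there are no factors of type IV then the Tate classes on `X` are combinations of
products of classes of divisors; this was known (Banaszak, Gajda, Krason).

Remark: the condition on `p` is the right one. For each even `p ≥ 4` there are simple abelian
varieties of type IV with all relative signatures `(p, p)` for which `V_s` is a tensor product of
spaces of the dimensions `2` and `p` (from a quaternion algebra and a hermitian space over a totally
real field of degree two, each of them definite at one place), and then there are other Tate classes.

**The proof.** Let `𝔤` be the Lie algebra which is generated by the Hodge-Tate elements `h` of `X`
over `ℂ`; the operators `D = 2 h - 1` are involutions. Let `V` be an irreducible submodule of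
`ℂ ⊗ H_1`; it belongs to a simple factor `Y` and is isomorphic to an eigenspace `V_s` of a maximal
subfield. First we need an element of rank one (or two, for the types I and II) in the restriction of
`𝔤` to `V`. Let `Y` be of type IV and let `D` be an involution whose eigenspaces `P`, `Q` on `V` have
the same dimension `p`. If `p = 2` and if there is no element of rank one then the parts `𝔤_2` and
`𝔤_{-2}` of the grading defined by `D` are one-dimensional, `V` is a tensor product of two spaces of
dimension two, and there is an invariant symmetric form on `V`. Let `p` be odd. The greatest common
divisors exclude tensor products. Let `e` be an element of minimal rank in the part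
`𝔤_2 ⊆ Hom(Q, P)` of degree two. If no element of `𝔤_2` is orthogonal to `e` then `𝔤_0` acts on `P`
and `Q` by exterior powers of the same `ℂ^d`; then `d = 2 t - 1`, and `V` is an irreducible
representation of `𝔤𝔩(2 t)` which has the highest weight of the exterior power of degree `t`, so that
`V` is isomorphic to its dual, up to a character. Otherwise the part of degree zero acts on `P` by all
endomorphisms, and the same is true for `Q` (here `p` odd is used). If `e` is not of rank one then it
has rank two, and there is a symmetric form on `V` which is invariant under `𝔤`. In all cases the
invariant form contradicts the theorem of Faltings since `Y` is of type IV. The elements of rank one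
separate the different irreducible submodules (they are not related by twists with characters, since
no relative signature is definite). So `𝔤` contains all operators on `ℂ ⊗ H_1` which commute with
`End(X)`, are skew for the polarization and have trace zero on each irreducible submodule.

By the first fundamental theorems for `GL` and `Sp` the invariant forms are linear combinations of
products of the invariant pairings between irreducible submodules and of determinants on those
irreducible submodules `V` which are not self-dual; these belong to factors of type IV. The
determinants on the eigenspaces `V_s` span, over `ℂ`, the same space as the Weil classes of `Y`, and a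
form which is given by a determinant on `V_s` and by different homomorphisms `X → Y` for its
different variables is, after alternation, a combination of pull-backs along sums of these
homomorphisms. Finally one passes from `ℂ` to rational forms.
-/

namespace Pool.Agent.Results.MP_938ce2_ag.BalancedFactors

open Module TensorProduct
open Pool.Agent.Y90 (AV IsHom)
open Pool.Agent.Y90.St (IsPolarization)
open Pool.Agent.R915 (IsSimple IsFactor)
open Pool.Agent.N183.U5 (MaxField)
open Pool.Agent.Y224.TS.St (IsTateModule)
open Pool.Agent.K9h17.H (IsBalanced WeilGen)

/-- **The ring of Tate classes, and the Tate conjecture up to the Weil classes,** for an abelian
variety `X` all of whose simple factors have balanced relative signatures `(p, p)` with `p` odd or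
two and none of which is of type III (`IsBalanced`): each Tate class `f` of codimension `m` on `X` is
a linear combination of rational classes which belong to the ring generated by Hodge classes of degree
two (classes of divisors) and pull-backs of Weil classes on simple abelian varieties of type IV
(`WeilGen`). The abelian variety is given by `X : AV`, a polarization `E` and the
representation `ρ` of the Galois group `Γ` on the Tate module `ℚ_ℓ ⊗ H_1(X, ℚ)`, with the known
properties of the Tate module (`IsTateModule`; `χ` is the cyclotomic character, and `ℂ` is identified
with an algebraic closure of `ℚ_ℓ`). -/
theorem result (X : AV) (hX : ∀ Y, IsFactor Y X → IsBalanced Y)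
    (E : X.H → X.H → ℚ) (hE : IsPolarization X.per E)
    (ℓ : ℕ) [Fact ℓ.Prime] [Algebra ℚ_[ℓ] ℂ] [Algebra.IsAlgebraic ℚ_[ℓ] ℂ]
    {Γ : Type} [Group Γ] (ρ : Representation ℚ_[ℓ] Γ (ℚ_[ℓ] ⊗[ℚ] X.H)) (χ : Γ →* ℚ_[ℓ])
    (hρ : IsTateModule X.per E ρ χ)
    (m : ℕ) (f : (ℚ_[ℓ] ⊗[ℚ] X.H) [⋀^Fin m × Fin 2]→ₗ[ℚ_[ℓ]] ℚ_[ℓ])
    (hf : ∃ Δ : Subgroup Γ, Δ.FiniteIndex ∧ ∀ g ∈ Δ, ∀ v : Fin m × Fin 2 → ℚ_[ℓ] ⊗[ℚ] X.H,
      f (fun k => ρ g (v k)) = χ g ^ m * f v) :
    ∃ (N : ℕ) (c : Fin N → ℚ_[ℓ]) (g : Fin N → X.H [⋀^Fin m × Fin 2]→ₗ[ℚ] ℚ),
      (∀ j, WeilGen X (Fin m × Fin 2) (g j)) ∧ ∀ v : Fin m × Fin 2 → X.H,
        f (fun k => (1 : ℚ_[ℓ]) ⊗ₜ[ℚ] v k) = ∑ j, c j * ((g j v : ℚ) : ℚ_[ℓ]) :=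
  Pool.Agent.K9h17.H.balanced_ring X hE hX hρ f hf

end Pool.Agent.Results.MP_938ce2_ag.BalancedFactors
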