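import Mathlib
import Pool.Agent.K9h17.E.Thm

/-!
# The Tate conjecture for simple abelian varieties of type I and II, from Frobenius elements with an
# odd number of eigenvalues in three slope classes, or with two slopes and a nonsquare value

Let `X` be a simple abelian variety of type I or II of Albert over a number field, so that the
algebra `End(X) ⊗ ℚ` has a totally real maximal subfield `ℚ[a]`, of degree `m` (for instance
`End(X) = ℤ` and `a = 0`). For each embedding `s` of `ℚ[a]` there is the eigenspace `V_s` of the Tate
module (with coefficients in `ℂ`), a symplectic space of dimension `2 h`, `h = dim(X) / m`. For `h`
odd the Tate conjecture is known for all powers of `X` (Serre; Banaszak, Gajda and Krasoń). This is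
about `h` even, where the image of the Galois group can be smaller (Mumford).

**Theorem.** Suppose that for each `s` there is an element of the Galois group, commuting with the
endomorphisms, which is diagonalizable on `V_s`, such that one of the following holds.

* (`OddThree`) There are integers `ε i` in `{1, 0, -1}` attached to its eigenvalues `α i`, compatible
  with the multiplicative relations `α i * α l = α j * α k`, such that the values `1`, `-1` are taken
  equally often, an odd number `f` of times, and `f` is not `h / 2`; for instance a Frobenius element
  whose slopes on `V_s` are `0`, `1 / 2`, `1`, with multiplicities `f`, `2 h - 2 f`, `f`.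
* (`TwoSlopesNonsquare`) `h` is divisible by four, it is a Frobenius element of absolute norm `q` with
  only two slopes `λ ≠ 1 - λ` on `V_s` (for instance at an ordinary place), and for its
  characteristic polynomial `P` on `V_s`, with coefficients in the field `ℚ(s)`, the number
  `P(√q) P(-√q)` is not a square in `ℚ(s)`.

Then all Tate classes on all powers of `X` are linear combinations of products of Tate classes of
degree two; these are classes of divisors by the theorem of Faltings. So the Tate conjecture holds
for all powers of `X`.

In particular it is true if `End(X) = ℤ`, `dim X` is divisible by four, and for one ordinary place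
the characteristic polynomial `P` of the Frobenius element has no multiple roots and `P(√q) P(-√q)`
is not the square of a rational number. There is no condition on the irreducibility of `P`, and the
dimension is not supposed to be a power of two.

**The proof.** If all automorphisms `σ` of `ℂ` over `ℚ(s)` moved an even number of the eigenvalues
`α` with `v(α) = λ` to eigenvalues with `v = 1 - λ` then the product of the `α - q / α` over the
eigenvalues of slope `λ` would be in `ℚ(s)`, and its square is `P(√q) P(-√q)` up to the square of a
power of `q`. So the second case gives an automorphism `σ`, and `ε i` is the
difference of the slopes of `α i` and `σ (α i)`. The weights `ε i` give (by a theorem on normalizers,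
Serre's and Pink's idea) a semisimple element `ν` of the Lie algebra `𝔤` of the Tate classes with
`ν ^ 3 = ν`, in addition to the Hodge-Tate elements `h` with `(2 h - 1) ^ 2 = 1`. It is shown with
elementary methods, without the classification of the simple Lie algebras, that an irreducible
symplectic Lie algebra with these properties contains an element of rank one, if the eigenvalue `1`
of `ν` has an odd multiplicity, different from a fourth of the dimension: an involution in the
part of degree zero, whose trace on the part of degree one has to be even except if there is
an element of rank one. Then `𝔤` is the full symplectic Lie algebra on each `V_s`; different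
embeddings are separated by the elements of rank one (`Pool.Agent.N183`), and the first
fundamental theorem gives the classes of degree two.

(The same is proved in `Pool.Agent.K9h17.T.Mt` for abelian varieties with several simple factors.)
-/

namespace Pool.Agent.Results.MP_938ce2_ag.ThreeSlopeClasses

open Module Polynomial TensorProduct
open Pool.Agent.Y90 (AV IsHom)
open Pool.Agent.Y90.St (IsPolarization)
open Pool.Agent.R915 (IsSimple RealMax)
open Pool.Agent.Y224.TS.St (IsTateModule)
open Pool.Agent.K9h17.C (TateGeneratedInCodim)
open Pool.Agent.K9h17.E (OddSlopes)

/-- **The Tate conjecture** for all powers of a simple abelian variety `X` of type I or II, with the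
totally real maximal subfield `ℚ[a]`, from elements `γ` of the Galois group which commute with the
endomorphisms of `X` and which have three classes of eigenvalues on `V_s` (`OddThree`), or two slopes
and a nonsquare value of the characteristic polynomial (`TwoSlopesNonsquare`), for each embedding `s`
of `ℚ[a]`; this condition is `OddSlopes`. The abelian variety is given by `X : AV`, a polarization `E` and the representation `ρ` of the Galois group `Γ` on the Tate
module `ℚ_ℓ ⊗ H_1(X, ℚ)`, with the known properties of the Tate module (`IsTateModule`; `χ` is the
cyclotomic character, and `ℂ` is identified with an algebraic closure of `ℚ_ℓ`). -/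
theorem result (X : AV) (hX : IsSimple X) (a : Module.End ℚ X.H) (ha : RealMax X a)
    (E : X.H → X.H → ℚ) (hE : IsPolarization X.per E)
    (ℓ : ℕ) [Fact ℓ.Prime] [Algebra ℚ_[ℓ] ℂ] [Algebra.IsAlgebraic ℚ_[ℓ] ℂ]
    {Γ : Type} [Group Γ] (ρ : Representation ℚ_[ℓ] Γ (ℚ_[ℓ] ⊗[ℚ] X.H)) (χ : Γ →* ℚ_[ℓ])
    (hρ : IsTateModule X.per E ρ χ)
    (hγ : OddSlopes ρ a) (m : ℕ) : TateGeneratedInCodim ρ χ m :=
  Pool.Agent.K9h17.E.thm_three hX hE hρ ha hγ m

end Pool.Agent.Results.MP_938ce2_ag.ThreeSlopeClasses
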