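import Mathlib
import Pool.Agent.K9h17.E.Thm

/-!
# The Tate conjecture for simple abelian varieties with an unbalanced signature

Let `X` be a simple abelian variety over a number field and `ℚ[a]` a maximal subfield of the
endomorphism algebra `End(X) ⊗ ℚ`, of degree `m`, and `n = 2 dim(X) / m` (the relative dimension).
For each embedding `s` of `ℚ[a]` in `ℂ` there is the relative signature `(p_s, q_s)`, where `p_s` is
the multiplicity of the eigenvalue `s` of `a` on the tangent space and `p_s + q_s = n`. If
`End(X) ⊗ ℚ` is an imaginary quadratic field then `n = dim X`, and there is only one signature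
`(p, q)`, up to the order.

**Theorem.** Suppose that all the signatures are indefinite (`p_s > 0`), and that one of them,
`(p, q)`, satisfies the following conditions:

* `p ≠ q`, and `(p, q)` is not a pair of consecutive binomial coefficients `C(d, k - 1)`, `C(d, k)`
  with `2 ≤ k ≤ d - 1` (the first such pairs with `p ≠ q` are `(4, 6)`, `(6, 4)`, `(5, 10)`);
* `n` does not divide `gcd(p, q) * gcd(p_s, q_s)` for any embedding `s`.

Then on all powers of `X` all `ℓ`-adic Tate classes of codimension `m < n` are linear combinations of
products of Tate classes of degree two, and these are classes of divisors by the theorem of Faltings.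
If the multiplicities of the centre of `End(X)` are nondegenerate (this is always true if the centre
is an imaginary quadratic field, because of `p ≠ q`) then this is true in all codimensions: the Tate
conjecture holds for all powers of `X`. In the degenerate case there may be exceptional classes, of
codimension at least `n`.

For imaginary quadratic fields the conditions say that `p ≠ q`, `p, q > 0`, that `(p, q)` is not a
pair of consecutive binomial coefficients and that `p + q` does not divide `gcd(p, q) ^ 2`: for
instance `(2, 4)`, `(2, 6)`, and all `(2, q)` with `q ≥ 3`, `(3, q)` with `q ≥ 4`, `q ≠ 6`. Before,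
`gcd(p, q) = 1` was needed (Ribet, Serre, Chi).

**The proof.** Let `𝔤` be the Lie algebra which is generated by the Hodge-Tate elements `h` of `X`
over `ℂ`; the operators `D = 2 h - 1` are involutions. The restriction of `𝔤` to the eigenspace `V_s`
of `a` is irreducible (Faltings, Serre), and it contains `𝔰𝔩(V_s)` as soon as it contains an element
of rank one. Take an involution `D` in it with multiplicities `p ≠ q`; it gives a grading of `𝔤` with
the degrees `-2`, `0`, `2`. It is shown with elementary methods, without the classification of the
simple Lie algebras, that there is an element of rank one in degree two if the ideal which is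
generated by the elements of the degrees `2`, `-2` acts irreducibly, since otherwise the part of
degree zero acts on the two eigenspaces of `D` by consecutive exterior powers of some `ℂ^d`, and
`(p, q)` is a pair of consecutive binomial coefficients. If the ideal does not act irreducibly, then
`V_s` is a tensor product and each Hodge-Tate involution is the identity (up to sign) on one of the
two tensor factors; this is excluded by the condition on the greatest common divisors. The different
embeddings `s` are then separated by means of the elements of rank one (`Pool.Agent.N183`), the centre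
of `𝔤` is determined by `IsNondegenerate`, and the first fundamental theorem for the groups `GL` gives
the classes of degree two; determinants on the `V_s` have degree at least `n`.

(The same is proved in `Pool.Agent.K9h17.G.Mt` for abelian varieties with several simple factors.)
-/

namespace Pool.Agent.Results.MP_938ce2_ag.UnbalancedSignatures

open Module Polynomial TensorProduct
open Pool.Agent.Y90 (AV IsHom)
open Pool.Agent.Y90.St (IsPolarization)
open Pool.Agent.R915 (IsSimple)
open Pool.Agent.N183.U5 (MaxField CentreGen IsNondegenerate)
open Pool.Agent.Y224.TS.St (IsTateModule)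
open Pool.Agent.K9h17.C (TateGeneratedInCodim)

/-- **The Tate conjecture** for all powers of a simple abelian variety `X`, with a maximal subfield
`ℚ[a]` of the endomorphism algebra all of whose relative signatures are indefinite, where one of them
is an unbalanced signature `(p, q)` which satisfies the conditions `hbin` and `hgcd`. The
codimension is less than `n = p + q`, or the multiplicities of the centre `ℚ[φ]` are nondegenerate.
The abelian variety is given by `X : AV`, a polarization `E` and the representation `ρ` of the Galois
group `Γ` on the Tate module `ℚ_ℓ ⊗ H_1(X, ℚ)`, with the known properties of the Tate module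
(`IsTateModule`; `χ` is the cyclotomic character, and `ℂ` is identified with an algebraic closure of
`ℚ_ℓ`). The tangent maps of `a` and `φ` are `Ψ` and `Φ`. -/
theorem result (X : AV) (hX : IsSimple X) (a : Module.End ℚ X.H) (ha : MaxField X a)
    (Ψ : Module.End ℂ X.T) (hΨ : ∀ v, Ψ (X.per v) = X.per (a v))
    (hpos : ∀ s : ℂ, aeval s (minpoly ℚ a) = 0 → 0 < finrank ℂ (Ψ.eigenspace s))
    (s₀ : ℂ) (hs₀ : aeval s₀ (minpoly ℚ a) = 0)
    (p q : ℕ) (hp : finrank ℂ (Ψ.eigenspace s₀) = p) (hq : 0 < q)
    (hdim : (minpoly ℚ a).natDegree * (p + q) = finrank ℚ X.H) (hpq : p ≠ q)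
    (hbin : ∀ d k : ℕ, 2 ≤ k → k + 1 ≤ d → ¬(p = d.choose (k - 1) ∧ q = d.choose k))
    (hgcd : ∀ s : ℂ, aeval s (minpoly ℚ a) = 0 →
      ¬p + q ∣ p.gcd q * (finrank ℂ (Ψ.eigenspace s)).gcd (p + q))
    (φ : Module.End ℚ X.H) (hφ : CentreGen X φ)
    (Φ : Module.End ℂ X.T) (hΦ : ∀ v, Φ (X.per v) = X.per (φ v))
    (E : X.H → X.H → ℚ) (hE : IsPolarization X.per E)
    (ℓ : ℕ) [Fact ℓ.Prime] [Algebra ℚ_[ℓ] ℂ] [Algebra.IsAlgebraic ℚ_[ℓ] ℂ]
    {Γ : Type} [Group Γ] (ρ : Representation ℚ_[ℓ] Γ (ℚ_[ℓ] ⊗[ℚ] X.H)) (χ : Γ →* ℚ_[ℓ])
    (hρ : IsTateModule X.per E ρ χ)
    (m : ℕ) (hm : m < p + q ∨ IsNondegenerate fun s => finrank ℂ (Φ.eigenspace s)) :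
    TateGeneratedInCodim ρ χ m :=
  Pool.Agent.K9h17.E.thm_unbalanced hX ha hΨ hE hρ hpos hs₀ hp hq hdim hpq hbin hgcd hφ hΦ hm

end Pool.Agent.Results.MP_938ce2_ag.UnbalancedSignatures
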