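import Mathlib
import Pool.Agent.K9h17.H.Uni

/-!
# Tate classes on the powers of abelian varieties of Weil type with a unipotent element of odd rank

Let `X` be a simple abelian variety over a number field and `ℚ[a]` a maximal subfield of the
endomorphism algebra `End(X) ⊗ ℚ`, of degree `m`, and `2 p = 2 dim(X) / m` the relative dimension.
For each embedding `s` of `ℚ[a]` in `ℂ` there is the eigenspace `V_s` of the Tate module (with
complex coefficients), of dimension `2 p`. Suppose that the multiplicity of the eigenvalue `s` of `a`
on the tangent space is `p`, for all `s`: all relative signatures are `(p, p)`. For type IV this means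
for instance that `X` is an abelian variety of Weil type (and it is always true for the types I, II
and III). If `X` is of type IV then there are exceptional Tate classes, the Weil classes:
`Λ^{2p}_{ℚ[a]} H^1(X, ℚ)` consists of Hodge classes of degree `2 p`.

If `p` is odd or `p = 2` and `X` is of type IV, then all Tate classes on the powers of `X` are generated
by classes of divisors and Weil classes (`BalancedFactors`). For even `p > 2` there are other
possibilities for the Mumford-Tate group (for instance `V_s` can be a tensor product, or a half-spin
representation of `𝔰𝔬(10)`, for `p = 8`), and one needs some information on the Galois group.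

**Theorem.** Suppose that for each `s` there is an element `γ` of the Galois group, commuting with the
endomorphisms of `X`, with `(γ - 1) ^ 2 = 0` on `V_s`, such that `γ - 1` has an odd rank on `V_s`.
Then on all powers of `X` and in all codimensions each `ℓ`-adic Tate class is a linear combination,
with coefficients in `ℚ_ℓ`, of products of Hodge classes of degree two and of pull-backs of Weil
classes along homomorphisms `X ^ n → X`.

The Hodge classes of degree two are classes of divisors (Lefschetz). So the Tate conjecture for all
powers of `X` is reduced to the algebraicity of the Weil classes on `X` itself, and it holds in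
codimension less than `p` on all powers of `X`. For fourfolds of Weil type (`p = 2`) the Weil classes
are algebraic by a theorem of Markman.

If `X` has semistable reduction at a place `v`, and the endomorphisms are defined over the base
field, then the elements of the inertia group at `v` have the property `(γ - 1) ^ 2 = 0`, and the rank
of `γ - 1` on the Tate module is the dimension of the torus in the reduction, for a generator `γ` of
the tame inertia group. It is the sum of the ranks on the spaces `V_s`. For instance, if `End(X) ⊗ ℚ` is
an imaginary quadratic field, then the ranks on `V_s` and `V_{s̄}` are equal, and one needs a place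
where the torus has the dimension `2 r` with an odd number `r`. The results which were known before
need an element of rank one, or elements whose ranks and related multiplicities have no common
divisor (in `Pool.Agent.Results.MP_640417_ag.BadPlaces`, where the case of the types I and II is
treated completely).

**The proof.** Let `𝔤` be the Lie algebra which is generated by the Hodge-Tate elements on `V_s`; it
is irreducible (Faltings, Serre), and the Galois group normalizes it, so that it contains
`N = γ - 1` modulo the scalars. Let `D` be a Hodge-Tate involution. If the ideal which is generated
by the elements of degree `2` and `-2` for `D` does not act irreducibly then `V_s` is a tensor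
product; the elements of `𝔤` are the sums `A + B` of commuting elements for the two factors, and `N`
is contained in one of them, which contradicts the odd rank. So the elements of degree `2` and `-2`
act irreducibly. Suppose that there are no elements of rank one in degree `2`, let `e` be such an
element of minimal rank `m`, and conjugate `D` so that it does not commute with `N`; then `N` is
conjugate to the orthogonal sum of elements of degree `2` and `0`. Either the two eigenspaces of `D`
are exterior powers `Λ^(k - 1)`, `Λ^k` of some `ℂ^d`, `d = 2 k - 1`, and all nilpotent elements with
square zero which do not commute with `D` have the rank `C(d - 1, k - 1)`, an even number; or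
`m = p / 2`, where `V_s` is a Clifford module and the rank of `N` is even; or there is a symmetric
form on `V_s` which is invariant up to multipliers, and the rank of `N` is even again. So there are
elements of rank one. By the first fundamental theorem for `GL` and `Sp` the invariant forms are
combinations of products of invariant bilinear forms and of determinants on the `V_s`. The
determinants are invariant because of the signatures `(p, p)`; together they span, over `ℂ`, the
space of the Weil classes, and one can pass from `ℂ` to rational forms.
-/

namespace Pool.Agent.Results.MP_938ce2_ag.UnipotentWeilType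

open Module Polynomial TensorProduct
open Pool.Agent.Y90 (AV IsHom)
open Pool.Agent.Y90.St (IsPolarization)
open Pool.Agent.R915 (IsSimple)
open Pool.Agent.N183.U5 (MaxField)
open Pool.Agent.Y224.TS.St (IsTateModule)
open Pool.Agent.H204R3.GP (IsTateClass)
open Pool.Agent.K9h17.E (OddUnipotent)
open Pool.Agent.K9h17.H (weilSpan)

/-- **The ring of Tate classes, and the Tate conjecture up to the Weil classes,** for all powers of a
simple abelian variety `X` with a maximal subfield `ℚ[a]` of the endomorphism algebra all of whose
relative signatures are `(p, p)`, from elements `γ` of the Galois group which commute with the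
endomorphisms of `X` and act on `V_s` with `(γ - 1) ^ 2 = 0`, where `γ - 1` has an odd rank on `V_s`
(`OddUnipotent`): on `X ^ n` each Tate class `f` of codimension `m` is a linear combination of rational
classes in `weilSpan X a (2 * p) n m`, that is, of products of Hodge classes of degree two (classes of
divisors) and pull-backs of Weil classes on `X`. The abelian variety is given by `X : AV`, a
polarization `E` and the representation `ρ` of the Galois group `Γ` on the Tate module
`ℚ_ℓ ⊗ H_1(X, ℚ)`, with the known properties of the Tate module (`IsTateModule`; `χ` is the cyclotomic
character, and `ℂ` is identified with an algebraic closure of `ℚ_ℓ`). The tangent map of `a` is `Ψ`. -/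
theorem result (X : AV) (hX : IsSimple X) (a : Module.End ℚ X.H) (ha : MaxField X a)
    (Ψ : Module.End ℂ X.T) (hΨ : ∀ v, Ψ (X.per v) = X.per (a v))
    (p : ℕ) (hbal : ∀ s : ℂ, aeval s (minpoly ℚ a) = 0 → finrank ℂ (Ψ.eigenspace s) = p)
    (hdim : (minpoly ℚ a).natDegree * (2 * p) = finrank ℚ X.H)
    (E : X.H → X.H → ℚ) (hE : IsPolarization X.per E)
    (ℓ : ℕ) [Fact ℓ.Prime] [Algebra ℚ_[ℓ] ℂ] [Algebra.IsAlgebraic ℚ_[ℓ] ℂ]
    {Γ : Type} [Group Γ] (ρ : Representation ℚ_[ℓ] Γ (ℚ_[ℓ] ⊗[ℚ] X.H)) (χ : Γ →* ℚ_[ℓ])
    (hρ : IsTateModule X.per E ρ χ) (hγ : OddUnipotent ρ a)
    (n m : ℕ) (f : (Fin n → ℚ_[ℓ] ⊗[ℚ] X.H) [⋀^Fin m × Fin 2]→ₗ[ℚ_[ℓ]] ℚ_[ℓ])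
    (hf : IsTateClass ρ χ m f) :
    ∃ (N : ℕ) (c : Fin N → ℚ_[ℓ]) (g : Fin N → (Fin n → X.H) [⋀^Fin m × Fin 2]→ₗ[ℚ] ℚ),
      (∀ j, g j ∈ weilSpan X a (2 * p) n m) ∧ ∀ v : Fin m × Fin 2 → Fin n → X.H,
        f (fun l i => (1 : ℚ_[ℓ]) ⊗ₜ[ℚ] v l i) = ∑ j, c j * ((g j v : ℚ) : ℚ_[ℓ]) :=
  Pool.Agent.K9h17.H.unipotent_ring hX ha hΨ hE hρ hbal hdim hγ f hf

end Pool.Agent.Results.MP_938ce2_ag.UnipotentWeilType
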